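import Pool.Agent.H126R2.CDC.Main

set_option autoImplicit false

/-!
No smallest counterexample to the circuit double cover conjecture has a cyclic 4-edge-cut.

Graphs, circuits, bridgeless graphs and circuit double covers are those of
`Pool.Agent.H126R2.CDC.Defs`; the proof rests on `MGraph.exists_cdc` from
`Pool.Agent.H126R2.CDC.Main`, which says that every finite bridgeless graph has a circuit double
cover.
-/

namespace Pool.Agent.Results.MP_b1bfa0_co.NoCyclicFourCut

open Finset
open Pool.Agent.H126R2.CDC

/-- A counterexample is a bridgeless graph without a circuit double cover. -/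
def IsCounterexample {V E : Type} [Fintype V] [DecidableEq V] [Fintype E] [DecidableEq E]
    (G : MGraph V E) : Prop :=
  G.Bridgeless ∧ ¬ ∃ F : Multiset (Finset E), G.IsCDC F

/-- A smallest counterexample is a counterexample `G` minimising `|V(G)| + |E(G)|` among all
counterexamples. -/
def IsSmallestCounterexample {V E : Type} [Fintype V] [DecidableEq V] [Fintype E] [DecidableEq E]
    (G : MGraph V E) : Prop :=
  IsCounterexample G ∧ ∀ (V' E' : Type) [Fintype V'] [DecidableEq V'] [Fintype E']
    [DecidableEq E'] (G' : MGraph V' E'), IsCounterexample G' →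
      Fintype.card V + Fintype.card E ≤ Fintype.card V' + Fintype.card E'

/-- The edges with exactly one end in `X`. -/
def cut {V E : Type} [Fintype V] [DecidableEq V] [Fintype E] [DecidableEq E]
    (G : MGraph V E) (X : Finset V) : Finset E :=
  univ.filter fun e => ∃ x y, x ∈ X ∧ y ∉ X ∧ G.ends e = s(x, y)

/-- `x` and `y` are in the same component of the graph `G - T`. -/
def SameComponent {V E : Type} (G : MGraph V E) (T : Finset E) : V → V → Prop :=
  Relation.ReflTransGen fun x y => ∃ e, e ∉ T ∧ G.ends e = s(x, y)

/-- `T` is a cyclic edge-cut: the set of edges with exactly one end in `X`, for some nonempty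
proper subset `X` of the vertex set, such that two different components of `G - T` contain
circuits `C` and `D`. -/
def IsCyclicEdgeCut {V E : Type} [Fintype V] [DecidableEq V] [Fintype E] [DecidableEq E]
    (G : MGraph V E) (T : Finset E) : Prop :=
  (∃ X : Finset V, X.Nonempty ∧ X ≠ univ ∧ T = cut G X) ∧
    ∃ C D : Finset E, G.IsCircuit C ∧ G.IsCircuit D ∧ Disjoint C T ∧ Disjoint D T ∧
      ∃ e ∈ C, ∃ f ∈ D, ∃ x ∈ G.ends e, ∃ y ∈ G.ends f, ¬ SameComponent G T x y

/-- No smallest counterexample to the circuit double cover conjecture has a cyclic edge-cut with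
exactly four edges. -/
theorem result : ∀ (V E : Type) [Fintype V] [DecidableEq V] [Fintype E] [DecidableEq E]
    (G : MGraph V E), IsSmallestCounterexample G →
      ¬ ∃ T : Finset E, IsCyclicEdgeCut G T ∧ T.card = 4 := by
  intro V E _ _ _ _ G hG
  exact absurd (G.exists_cdc hG.1.1) hG.1.2

end Pool.Agent.Results.MP_b1bfa0_co.NoCyclicFourCut
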